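import Mathlib

/-!
# The Koszul complex of a sequence of elements

The Koszul complex of the elements `x 0, …, x (n - 1)` of a commutative ring `A` with values in a
module `M`: its elements are the functions `f` from the subsets of `Fin n` to `M`, standing for
`∑ f T ⊗ e_T`.
-/

set_option autoImplicit false
set_option linter.all false

open Finset

namespace Pool.Agent.X317.Kos

variable {n : ℕ}

/-- The sign of `j` with respect to `T`: `(-1)` to the number of the elements of `T` below `j`. -/
def sgn (T : Finset (Fin n)) (j : Fin n) : ℤ := (-1) ^ (T.filter (fun t => t < j)).card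

theorem sgn_mul_self (T : Finset (Fin n)) (j : Fin n) : sgn T j * sgn T j = 1 := by
  unfold sgn
  rw [← pow_add, ← two_mul, pow_mul]
  norm_num

theorem sgn_insert (T : Finset (Fin n)) (j l : Fin n) (hj : j ∉ T) :
    sgn (insert j T) l = if j < l then - sgn T l else sgn T l := by
  unfold sgn
  rw [Finset.filter_insert]
  split_ifs with h
  · rw [Finset.card_insert_of_notMem (fun h1 => hj (Finset.mem_of_mem_filter _ h1)), pow_succ]
    ring
  · rfl

theorem sgn_swap (T : Finset (Fin n)) (j l : Fin n) (hj : j ∉ T) (hl : l ∉ T) (hjl : j ≠ l) :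
    sgn T l * sgn (insert l T) j = - (sgn T j * sgn (insert j T) l) := by
  rw [sgn_insert T j l hj, sgn_insert T l j hl]
  rcases lt_or_gt_of_ne hjl with h | h
  · rw [if_pos h, if_neg (lt_asymm h)]
    ring
  · rw [if_neg (lt_asymm h), if_pos h]
    ring

variable {A : Type*} [CommRing A] {M : Type*} [AddCommGroup M] [Module A M]

/-- The Koszul differential. -/
def dif (M : Type*) [AddCommGroup M] [Module A M] (x : Fin n → A) :
    (Finset (Fin n) → M) →ₗ[A] (Finset (Fin n) → M) where
  toFun f T := ∑ j ∈ Tᶜ, sgn T j • x j • f (insert j T)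
  map_add' f g := by
    funext T
    simp only [Pi.add_apply, smul_add, Finset.sum_add_distrib]
  map_smul' c f := by
    funext T
    simp only [Pi.smul_apply, RingHom.id_apply, Finset.smul_sum]
    refine Finset.sum_congr rfl fun j _ => ?_
    rw [smul_comm c (sgn T j), smul_comm c (x j)]

theorem dif_apply (x : Fin n → A) (f : Finset (Fin n) → M) (T : Finset (Fin n)) :
    dif M x f T = ∑ j ∈ Tᶜ, sgn T j • x j • f (insert j T) := rfl

theorem dif_dif (x : Fin n → A) (f : Finset (Fin n) → M) : dif M x (dif M x f) = 0 := by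
  classical
  funext T
  rw [dif_apply]
  let a : Fin n × Fin n → M := fun z =>
    if z.1 ∉ T ∧ z.2 ∉ T ∧ z.1 ≠ z.2 then
      (sgn T z.1 * sgn (insert z.1 T) z.2) • (x z.1 * x z.2) • f (insert z.2 (insert z.1 T))
    else 0
  have h1 : ∑ z : Fin n × Fin n, a z = 0 := by
    refine Finset.sum_involution (fun z _ => (z.2, z.1)) ?_ ?_ (fun _ _ => Finset.mem_univ _)
      (fun _ _ => rfl)
    · rintro ⟨l, j⟩ -
      simp only [a]
      by_cases h : l ∉ T ∧ j ∉ T ∧ l ≠ j
      · rw [if_pos h, if_pos ⟨h.2.1, h.1, h.2.2.symm⟩, sgn_swap T j l h.2.1 h.1 h.2.2.symm,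
          mul_comm (x j) (x l), Finset.insert_comm j l, neg_smul, neg_add_cancel]
      · rw [if_neg h, if_neg (fun h2 => h ⟨h2.2.1, h2.1, h2.2.2.symm⟩), add_zero]
    · rintro ⟨l, j⟩ - hne h2
      simp only [a] at hne
      apply hne
      rw [if_neg]
      rintro ⟨-, -, h3⟩
      exact h3 (congrArg Prod.fst h2).symm
  rw [Fintype.sum_prod_type] at h1
  rw [Pi.zero_apply, ← h1, ← Finset.sum_subset (Finset.subset_univ Tᶜ)]
  · refine Finset.sum_congr rfl fun l hl => ?_
    rw [Finset.mem_compl] at hl
    rw [dif_apply, Finset.smul_sum, Finset.smul_sum,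
      ← Finset.sum_subset (Finset.subset_univ (insert l T)ᶜ)]
    · refine Finset.sum_congr rfl fun j hj => ?_
      rw [Finset.mem_compl, Finset.mem_insert, not_or] at hj
      simp only [a]
      rw [if_pos ⟨hl, hj.2, Ne.symm hj.1⟩, mul_smul, mul_smul, smul_comm (x l) (sgn _ j)]
    · intro j _ hj
      rw [Finset.mem_compl, not_not, Finset.mem_insert] at hj
      simp only [a]
      rw [if_neg]
      rintro ⟨-, h2, h3⟩
      rcases hj with rfl | hj
      · exact h3 rfl
      · exact h2 hj
  · intro l _ hl
    rw [Finset.mem_compl, not_not] at hl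
    refine Finset.sum_eq_zero fun j _ => ?_
    simp only [a]
    rw [if_neg]
    rintro ⟨h2, -⟩
    exact h2 hl

/-- multiplication by `e_j` -/
def ext (j : Fin n) (f : Finset (Fin n) → M) : Finset (Fin n) → M := fun T =>
  if j ∈ T then sgn (T.erase j) j • f (T.erase j) else 0

/-- **The homotopy.** -/
theorem dif_ext (x : Fin n → A) (j : Fin n) (f : Finset (Fin n) → M) :
    dif M x (ext j f) + ext j (dif M x f) = x j • f := by
  classical
  funext T
  rw [Pi.add_apply, Pi.smul_apply, dif_apply]
  by_cases hj : j ∈ T
  · set T' := T.erase j with hT'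
    have hjT' : j ∉ T' := Finset.notMem_erase j T
    have hT : insert j T' = T := Finset.insert_erase hj
    have h1 : ext j (dif M x f) T = ∑ l ∈ T'ᶜ, sgn T' j • sgn T' l • x l • f (insert l T') := by
      unfold ext
      rw [if_pos hj, dif_apply, Finset.smul_sum]
    have h2 : T'ᶜ = insert j Tᶜ := by
      rw [← hT, Finset.compl_insert, Finset.insert_erase]
      rw [Finset.mem_compl]
      exact hjT'
    rw [h1, h2, Finset.sum_insert (by rw [Finset.mem_compl, not_not]; exact hj), hT, smul_smul,
      sgn_mul_self, one_smul, add_left_comm, ← Finset.sum_add_distrib]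
    rw [Finset.sum_eq_zero, add_zero]
    intro l hl
    rw [Finset.mem_compl] at hl
    have hlj : l ≠ j := fun h => hl (h ▸ hj)
    have hlT' : l ∉ T' := fun h => hl (Finset.mem_of_mem_erase h)
    have h3 : (insert l T).erase j = insert l T' := by
      rw [hT', Finset.erase_insert_of_ne hlj]
    unfold ext
    rw [if_pos (Finset.mem_insert_of_mem hj), h3]
    have h4 := sgn_swap T' l j hlT' hjT' hlj
    rw [hT] at h4
    rw [smul_comm (x l) (sgn (insert l T') j), smul_smul, smul_smul, ← add_smul,
      mul_comm (sgn T' j) (sgn T' l)]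
    have h5 : sgn T l * sgn (insert l T') j + sgn T' l * sgn T' j = 0 := by
      have h6 : sgn T' j * sgn T l = - (sgn T' l * sgn (insert l T') j) := h4
      have h7 := sgn_mul_self T' j
      have h8 := sgn_mul_self T' l
      have h9 := sgn_mul_self (insert l T') j
      calc sgn T l * sgn (insert l T') j + sgn T' l * sgn T' j
          = (sgn T' j * sgn T' j) * (sgn T l * sgn (insert l T') j) + sgn T' l * sgn T' j := by
            rw [h7, one_mul]
        _ = sgn T' j * (sgn T' j * sgn T l) * sgn (insert l T') j + sgn T' l * sgn T' j := by ring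
        _ = - (sgn T' j * sgn T' l * (sgn (insert l T') j * sgn (insert l T') j)) +
            sgn T' l * sgn T' j := by rw [h6]; ring
        _ = 0 := by rw [h9]; ring
    rw [h5, zero_smul]
  · have h1 : ext j (dif M x f) T = 0 := by
      unfold ext
      rw [if_neg hj]
    rw [h1, add_zero, Finset.sum_eq_single_of_mem j (Finset.mem_compl.2 hj)]
    · unfold ext
      rw [if_pos (Finset.mem_insert_self _ _), Finset.erase_insert hj,
        smul_comm (x j) (sgn T j), smul_smul, sgn_mul_self, one_smul]
    · intro l hl hlj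
      unfold ext
      rw [if_neg, smul_zero, smul_zero]
      rw [Finset.mem_insert, not_or]
      exact ⟨Ne.symm hlj, hj⟩

end Pool.Agent.X317.Kos
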