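import Mathlib
import Pool.Agent.X317.Kos.Base

/-!
# Uniform bounds for the torsion in the Koszul homology of the powers of an ideal
-/

set_option autoImplicit false
set_option linter.all false

open Finset

namespace Pool.Agent.X317.Kos

variable {n : ℕ}

theorem dif_map {A A' M M' : Type*} [CommRing A] [CommRing A'] [AddCommGroup M] [Module A M]
    [AddCommGroup M'] [Module A' M'] (x : Fin n → A) (x' : Fin n → A') (φ : M →+ M')
    (hφ : ∀ j m, φ (x j • m) = x' j • φ m) (f : Finset (Fin n) → M) :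
    dif M' x' (fun T => φ (f T)) = fun T => φ (dif M x f T) := by
  funext T
  rw [dif_apply, dif_apply, map_sum]
  refine Finset.sum_congr rfl fun j _ => ?_
  rw [map_zsmul, hφ]

variable {S : Type*} [CommRing S]

/-- **The torsion is uniformly bounded.** -/
theorem uniform [IsNoetherianRing S] (I : Ideal S) (x : Fin n → S) :
    ∃ N : ℕ, 0 < N ∧ ∀ (h : ℕ) (z : Finset (Fin n) → ↥(I ^ h)),
      (∃ m : ℕ, 0 < m ∧ ∃ w, dif ↥(I ^ h) x w = m • z) → ∃ w, dif ↥(I ^ h) x w = N • z := by
  classical
  let R := reesAlgebra I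
  let x' : Fin n → R := fun j => algebraMap S R (x j)
  let D := dif R x'
  let Tn : Submodule R (Finset (Fin n) → R) :=
    { carrier := {z | ∃ m : ℕ, 0 < m ∧ ∃ w, D w = m • z}
      add_mem' := by
        rintro a b ⟨m, hm, w, hw⟩ ⟨m', hm', w', hw'⟩
        refine ⟨m * m', Nat.mul_pos hm hm', m' • w + m • w', ?_⟩
        rw [map_add, map_nsmul, map_nsmul, hw, hw', smul_add, smul_smul, smul_smul, mul_comm m' m]
      zero_mem' := ⟨1, one_pos, 0, by rw [map_zero, smul_zero]⟩
      smul_mem' := by
        rintro c z ⟨m, hm, w, hw⟩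
        exact ⟨m, hm, c • w, by rw [map_smul, hw, smul_comm]⟩ }
  have hN : IsNoetherian R (Finset (Fin n) → R) := inferInstance
  obtain ⟨s, hs⟩ := hN.noetherian Tn
  have hsT : ∀ z : s, ∃ m : ℕ, 0 < m ∧ ∃ w, D w = m • (z : Finset (Fin n) → R) := by
    intro z
    have h1 : (z : Finset (Fin n) → R) ∈ Tn := by
      rw [← hs]
      exact Submodule.subset_span z.2
    exact h1
  choose m hm w hw using hsT
  refine ⟨∏ z, m z, Finset.prod_pos fun z _ => hm z, ?_⟩
  have key : ∀ z ∈ Tn, ∃ w, D w = (∏ z, m z) • z := by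
    intro z hz
    rw [← hs] at hz
    induction hz using Submodule.span_induction with
    | mem z hz =>
      have h1 : (∏ z, m z) = (∏ z' ∈ Finset.univ.erase ⟨z, hz⟩, m z') * m ⟨z, hz⟩ :=
        (Finset.prod_erase_mul _ _ (Finset.mem_univ _)).symm
      refine ⟨(∏ z' ∈ Finset.univ.erase ⟨z, hz⟩, m z') • w ⟨z, hz⟩, ?_⟩
      rw [map_nsmul, hw, h1, mul_smul]
    | zero => exact ⟨0, by rw [map_zero, smul_zero]⟩
    | add a b _ _ ha hb =>
      obtain ⟨u, hu⟩ := ha
      obtain ⟨v, hv⟩ := hb
      exact ⟨u + v, by rw [map_add, hu, hv, smul_add]⟩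
    | smul c a _ ha =>
      obtain ⟨u, hu⟩ := ha
      exact ⟨c • u, by rw [map_smul, hu, smul_comm]⟩
  rintro h z ⟨m', hm', w', hw'⟩
  let φ : ↥(I ^ h) →+ R :=
    { toFun := fun a => ⟨Polynomial.monomial h (a : S), reesAlgebra.monomial_mem.2 a.2⟩
      map_zero' := by
        apply Subtype.ext
        simp
      map_add' := by
        intro a b
        apply Subtype.ext
        simp }
  have hφ : ∀ j (a : ↥(I ^ h)), φ (x j • a) = x' j • φ a := by
    intro j a
    apply Subtype.ext
    change Polynomial.monomial h (x j * (a : S)) = _ * Polynomial.monomial h (a : S)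
    rw [← Polynomial.C_mul_monomial]
    rfl
  let ψ : R →+ ↥(I ^ h) :=
    { toFun := fun a => ⟨Polynomial.coeff (a : Polynomial S) h, a.2 h⟩
      map_zero' := by
        apply Subtype.ext
        simp
      map_add' := by
        intro a b
        apply Subtype.ext
        simp }
  have hψ : ∀ j (a : R), ψ (x' j • a) = x j • ψ a := by
    intro j a
    apply Subtype.ext
    change Polynomial.coeff (Polynomial.C (x j) * (a : Polynomial S)) h =
      x j * Polynomial.coeff (a : Polynomial S) h
    exact Polynomial.coeff_C_mul _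
  have hψφ : ∀ a, ψ (φ a) = a := by
    intro a
    apply Subtype.ext
    change Polynomial.coeff (Polynomial.monomial h (a : S)) h = a
    rw [Polynomial.coeff_monomial, if_pos rfl]
  have h1 : (fun T => φ (z T)) ∈ Tn := by
    refine ⟨m', hm', fun T => φ (w' T), ?_⟩
    rw [show D = dif R x' from rfl, dif_map x x' φ hφ, hw']
    funext T
    rw [Pi.smul_apply, map_nsmul, Pi.smul_apply]
  obtain ⟨u, hu⟩ := key _ h1
  refine ⟨fun T => ψ (u T), ?_⟩
  rw [dif_map x' x ψ hψ]
  funext T
  have h2 := congrFun hu T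
  rw [show D = dif R x' from rfl] at h2
  rw [h2, Pi.smul_apply, map_nsmul, hψφ, Pi.smul_apply]

end Pool.Agent.X317.Kos
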