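import Mathlib
import Pool.Agent.X317.Kos.Tors

/-!
# Koszul homology
-/

set_option autoImplicit false
set_option linter.all false

open Finset

namespace Pool.Agent.X317.Kos

variable {n : ℕ} {A : Type*} [CommRing A] (x : Fin n → A) (M : Type*) [AddCommGroup M] [Module A M]

/-- The chains of degree `i`: the functions supported on the subsets with `i` elements. -/
def chains (A : Type*) [CommRing A] (M : Type*) [AddCommGroup M] [Module A M] (n i : ℕ) :
    Submodule A (Finset (Fin n) → M) where
  carrier := {f | ∀ T, T.card ≠ i → f T = 0}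
  add_mem' := by
    intro f g hf hg T hT
    rw [Pi.add_apply, hf T hT, hg T hT, add_zero]
  zero_mem' := fun T _ => rfl
  smul_mem' := by
    intro c f hf T hT
    rw [Pi.smul_apply, hf T hT, smul_zero]

/-- The cycles of degree `i`. -/
def cycles (i : ℕ) : Submodule A (Finset (Fin n) → M) :=
  chains A M n i ⊓ LinearMap.ker (dif M x)

/-- The boundaries of degree `i`. -/
def boundaries (i : ℕ) : Submodule A (Finset (Fin n) → M) :=
  (chains A M n (i + 1)).map (dif M x)

/-- The Koszul homology of degree `i`. -/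
abbrev Homology (i : ℕ) : Type _ := ↥(cycles x M i) ⧸ (boundaries x M i).submoduleOf (cycles x M i)

variable {x M}

theorem mem_chains {i : ℕ} {f : Finset (Fin n) → M} :
    f ∈ chains A M n i ↔ ∀ T, T.card ≠ i → f T = 0 := Iff.rfl

theorem mem_cycles {i : ℕ} {f : Finset (Fin n) → M} :
    f ∈ cycles x M i ↔ (∀ T, T.card ≠ i → f T = 0) ∧ dif M x f = 0 := by
  rw [cycles, Submodule.mem_inf, LinearMap.mem_ker]
  rfl

theorem mem_boundaries {i : ℕ} {f : Finset (Fin n) → M} :
    f ∈ boundaries x M i ↔ ∃ w, (∀ T, T.card ≠ i + 1 → w T = 0) ∧ dif M x w = f := by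
  rw [boundaries, Submodule.mem_map]
  rfl

theorem dif_supp {i : ℕ} {w : Finset (Fin n) → M} (hw : ∀ T, T.card ≠ i + 1 → w T = 0)
    (T : Finset (Fin n)) (hT : T.card ≠ i) : dif M x w T = 0 := by
  rw [dif_apply]
  refine Finset.sum_eq_zero fun j hj => ?_
  rw [Finset.mem_compl] at hj
  rw [hw, smul_zero, smul_zero]
  rw [Finset.card_insert_of_notMem hj]
  omega

theorem boundaries_le {i : ℕ} : boundaries x M i ≤ cycles x M i := by
  intro f hf
  rw [mem_boundaries] at hf
  obtain ⟨w, hw, rfl⟩ := hf
  rw [mem_cycles]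
  exact ⟨fun T hT => dif_supp hw T hT, dif_dif x w⟩

/-- the component of degree `i` -/
def comp (i : ℕ) (f : Finset (Fin n) → M) : Finset (Fin n) → M := fun T =>
  if T.card = i then f T else 0

theorem comp_supp (i : ℕ) (f : Finset (Fin n) → M) (T : Finset (Fin n)) (hT : T.card ≠ i) :
    comp i f T = 0 := if_neg hT

theorem dif_comp (i : ℕ) (f : Finset (Fin n) → M) :
    dif M x (comp (i + 1) f) = comp i (dif M x f) := by
  funext T
  by_cases hT : T.card = i
  · rw [comp, if_pos hT, dif_apply, dif_apply]
    refine Finset.sum_congr rfl fun j hj => ?_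
    rw [Finset.mem_compl] at hj
    rw [comp, if_pos (by rw [Finset.card_insert_of_notMem hj, hT])]
  · rw [comp_supp i _ T hT]
    exact dif_supp (comp_supp (i + 1) f) T hT

/-- a chain of degree `i` which is a boundary is the boundary of a chain of degree `i + 1` -/
theorem boundary_of {i : ℕ} {f : Finset (Fin n) → M} (hf : ∀ T, T.card ≠ i → f T = 0)
    (h : ∃ w, dif M x w = f) : f ∈ boundaries x M i := by
  obtain ⟨w, rfl⟩ := h
  rw [mem_boundaries]
  refine ⟨comp (i + 1) w, comp_supp _ _, ?_⟩
  rw [dif_comp]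
  funext T
  by_cases hT : T.card = i
  · rw [comp, if_pos hT]
  · rw [comp_supp _ _ _ hT, hf T hT]

/-- `x j` kills the homology. -/
theorem smul_mem_boundaries {i : ℕ} {f : Finset (Fin n) → M} (hf : f ∈ cycles x M i) (j : Fin n) :
    x j • f ∈ boundaries x M i := by
  have h1 := mem_cycles.1 hf
  refine boundary_of (fun T hT => ?_) ⟨ext j f, ?_⟩
  · rw [Pi.smul_apply, h1.1 T hT, smul_zero]
  · have h2 := dif_ext x j f
    rw [h1.2] at h2
    rw [← h2]
    have h3 : ext j (0 : Finset (Fin n) → M) = 0 := by
      funext T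
      unfold ext
      split_ifs <;> simp
    rw [h3, add_zero]

theorem span_smul_mem_boundaries {i : ℕ} {f : Finset (Fin n) → M} (hf : f ∈ cycles x M i) (s : A)
    (hs : s ∈ Ideal.span (Set.range x)) : s • f ∈ boundaries x M i := by
  induction hs using Submodule.span_induction with
  | mem s hs =>
    obtain ⟨j, rfl⟩ := hs
    exact smul_mem_boundaries hf j
  | zero => rw [zero_smul]; exact Submodule.zero_mem _
  | add a b _ _ ha hb => rw [add_smul]; exact Submodule.add_mem _ ha hb
  | smul c a _ ha => rw [smul_assoc]; exact Submodule.smul_mem _ _ ha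

end Pool.Agent.X317.Kos
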