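import Mathlib
import Pool.Agent.X317.Kos.Hom

/-!
# The Koszul homology over `ℤ` modulo torsion, and the Koszul homology over a field
-/

set_option autoImplicit false
set_option linter.all false

open Finset

namespace Pool.Agent.X317.Kos

variable {n : ℕ} {A : Type*} [CommRing A] (x : Fin n → A) (M : Type*) [AddCommGroup M] [Module A M]

/-- A positive multiple is a boundary. -/
def IsSat {n : ℕ} {A : Type*} [CommRing A] (x : Fin n → A) {M : Type*} [AddCommGroup M] [Module A M]
    (z : Finset (Fin n) → M) : Prop := ∃ m : ℕ, 0 < m ∧ ∃ w, dif M x w = m • z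

/-- the cycles of which a multiple is a boundary -/
def sat (i : ℕ) : Submodule ℤ ↥(cycles x M i) where
  carrier := {z | IsSat x (z : Finset (Fin n) → M)}
  add_mem' := by
    rintro a b ⟨m, hm, w, hw⟩ ⟨m', hm', w', hw'⟩
    refine ⟨m * m', Nat.mul_pos hm hm', m' • w + m • w', ?_⟩
    rw [map_add, map_nsmul, map_nsmul, hw, hw', Submodule.coe_add, smul_add, smul_smul, smul_smul,
      mul_comm m' m]
  zero_mem' := ⟨1, one_pos, 0, by rw [map_zero, Submodule.coe_zero, smul_zero]⟩
  smul_mem' := by
    rintro c z ⟨m, hm, w, hw⟩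
    refine ⟨m, hm, c • w, ?_⟩
    rw [map_zsmul, hw, smul_comm]
    rfl

/-- the homology modulo torsion -/
abbrev Fr (i : ℕ) : Type _ := ↥(cycles x M i) ⧸ sat x M i

variable {x M}

theorem isSat_of_mem {i : ℕ} {z : Finset (Fin n) → M} (hz : z ∈ boundaries x M i) : IsSat x z := by
  rw [mem_boundaries] at hz
  obtain ⟨w, -, hw⟩ := hz
  exact ⟨1, one_pos, w, by rw [hw, one_smul]⟩

theorem torsionFree (i : ℕ) : Module.IsTorsionFree ℤ (Fr x M i) := by
  rw [Module.isTorsionFree_iff_smul_eq_zero]
  intro c y
  induction y using Submodule.Quotient.induction_on with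
  | _ z =>
    intro h
    by_cases hc : c = 0
    · exact Or.inl hc
    right
    rw [← Submodule.Quotient.mk_smul, Submodule.Quotient.mk_eq_zero] at h
    rw [Submodule.Quotient.mk_eq_zero]
    obtain ⟨m, hm, w, hw⟩ := h
    have h1 : ∃ w, dif M x w = (m * c.natAbs) • (z : Finset (Fin n) → M) := by
      have h2 : ((c • z : ↥(cycles x M i)) : Finset (Fin n) → M) =
          c • (z : Finset (Fin n) → M) := rfl
      rw [h2] at hw
      rcases Int.natAbs_eq c with h3 | h3
      · refine ⟨w, ?_⟩
        rw [hw, mul_smul]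
        conv_lhs => rw [h3]
        rw [natCast_zsmul]
      · refine ⟨-w, ?_⟩
        rw [map_neg, hw, mul_smul]
        conv_lhs => rw [h3]
        rw [neg_smul, natCast_zsmul, smul_neg, neg_neg]
    exact ⟨m * c.natAbs, Nat.mul_pos hm (Int.natAbs_pos.2 hc), h1⟩

theorem finite_fr [IsNoetherianRing A] [Module.Finite A M]
    (hA : ∀ s : A, ∃ c : ℤ, s - (c : A) ∈ Ideal.span (Set.range x)) (i : ℕ) :
    Module.Finite ℤ (Fr x M i) := by
  classical
  have h0 : Module.Finite A ↥(cycles x M i) := inferInstance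
  obtain ⟨s, hs⟩ := h0
  refine ⟨⟨s.image (fun z => (Submodule.Quotient.mk z : Fr x M i)), ?_⟩⟩
  rw [eq_top_iff]
  rintro y -
  induction y using Submodule.Quotient.induction_on with
  | _ z =>
    have hz : z ∈ Submodule.span A (s : Set ↥(cycles x M i)) := by rw [hs]; trivial
    induction hz using Submodule.span_induction with
    | mem z hz =>
      refine Submodule.subset_span ?_
      rw [Finset.coe_image]
      exact ⟨z, hz, rfl⟩
    | zero => rw [Submodule.Quotient.mk_zero]; exact Submodule.zero_mem _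
    | add a b _ _ ha hb => rw [Submodule.Quotient.mk_add]; exact Submodule.add_mem _ ha hb
    | smul c a _ ha =>
      obtain ⟨c₀, hc₀⟩ := hA c
      have h1 : (Submodule.Quotient.mk (c • a) : Fr x M i) = c₀ • Submodule.Quotient.mk a := by
        rw [← Submodule.Quotient.mk_smul, Submodule.Quotient.eq]
        have h2 : (((c • a - c₀ • a : ↥(cycles x M i))) : Finset (Fin n) → M) =
            (c - (c₀ : A)) • (a : Finset (Fin n) → M) := by
          rw [sub_smul, Int.cast_smul_eq_zsmul]
          rfl
        change IsSat x _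
        rw [h2]
        exact isSat_of_mem (span_smul_mem_boundaries a.2 _ hc₀)
      rw [h1]
      exact Submodule.smul_mem _ _ ha

/-- **The dimension of the Koszul homology over a field is the rank over `ℤ`.** -/
theorem finrank_eq [IsNoetherianRing A] [Module.Finite A M]
    (hA : ∀ s : A, ∃ c : ℤ, s - (c : A) ∈ Ideal.span (Set.range x)) {i : ℕ}
    {K' A' M' : Type*} [Field K'] [CommRing A'] [Algebra K' A'] [AddCommGroup M'] [Module K' M']
    [Module A' M'] [IsScalarTower K' A' M'] (x' : Fin n → A') (φ : M →+ M')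
    (hK : ∀ (r : ℕ) (g : Fin r → K'), ∃ c : ℤ, (c : K') ≠ 0 ∧ ∀ l, ∃ d : ℤ, (c : K') * g l = d)
    (ha : ∀ z' ∈ cycles x' M' i, ∃ (c : ℤ) (z : Finset (Fin n) → M), (c : K') ≠ 0 ∧
      z ∈ cycles x M i ∧ (c • z' - fun T => φ (z T)) ∈ boundaries x' M' i)
    (hb : ∀ z ∈ cycles x M i, (fun T => φ (z T)) ∈ boundaries x' M' i →
      ∃ (c : ℤ) (z₁ : Finset (Fin n) → M), (c : K') = 0 ∧ z₁ ∈ cycles x M i ∧
        IsSat x (z - c • z₁))
    (hc : ∀ z ∈ cycles x M i, IsSat x z → (fun T => φ (z T)) ∈ boundaries x' M' i)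
    (hd : ∀ z ∈ cycles x M i, (fun T => φ (z T)) ∈ cycles x' M' i) :
    Module.finrank K' (Homology x' M' i) = Module.finrank ℤ (Fr x M i) := by
  classical
  have i1 := torsionFree (x := x) (M := M) i
  have i2 := finite_fr (x := x) (M := M) hA i
  have i3 : Module.Free ℤ (Fr x M i) := Module.free_of_finite_type_torsion_free'
  let b := Module.finBasis ℤ (Fr x M i)
  have hz : ∀ l, ∃ z : ↥(cycles x M i), (Submodule.Quotient.mk z : Fr x M i) = b l :=
    fun l => Submodule.Quotient.mk_surjective _ (b l)
  choose z hz using hz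
  let Φ : ↥(cycles x M i) →+ Homology x' M' i :=
    { toFun := fun z => Submodule.Quotient.mk ⟨fun T => φ ((z : Finset (Fin n) → M) T), hd _ z.2⟩
      map_zero' := by
        rw [Submodule.Quotient.mk_eq_zero]
        change (fun T => φ ((0 : Finset (Fin n) → M) T)) ∈ boundaries x' M' i
        have : (fun T => φ ((0 : Finset (Fin n) → M) T)) = 0 := by
          funext T
          exact map_zero φ
        rw [this]
        exact Submodule.zero_mem _
      map_add' := by
        intro a b
        rw [← Submodule.Quotient.mk_add]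
        congr 1
        apply Subtype.ext
        funext T
        exact map_add φ _ _ }
  have hΦ0 : ∀ z : ↥(cycles x M i), Φ z = 0 ↔
      (fun T => φ ((z : Finset (Fin n) → M) T)) ∈ boundaries x' M' i := fun z =>
    Submodule.Quotient.mk_eq_zero _
  have hΦs : ∀ z : ↥(cycles x M i), IsSat x (z : Finset (Fin n) → M) → Φ z = 0 := fun z hz =>
    (hΦ0 z).2 (hc _ z.2 hz)
  have hsum : ∀ (d : Fin (Module.finrank ℤ (Fr x M i)) → ℤ) (y : ↥(cycles x M i)),
      (Submodule.Quotient.mk y : Fr x M i) = ∑ l, d l • b l →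
        IsSat x ((y - ∑ l, d l • z l : ↥(cycles x M i)) : Finset (Fin n) → M) := by
    intro d y hy
    have h1 : (Submodule.Quotient.mk (y - ∑ l, d l • z l) : Fr x M i) = 0 := by
      have h2 : (Submodule.Quotient.mk (∑ l, d l • z l) : Fr x M i) = ∑ l, d l • b l := by
        rw [← Submodule.mkQ_apply, map_sum]
        refine Finset.sum_congr rfl fun l _ => ?_
        rw [map_zsmul, Submodule.mkQ_apply, hz]
      rw [Submodule.Quotient.mk_sub, hy, h2, sub_self]
    exact (Submodule.Quotient.mk_eq_zero _).1 h1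
  have hint : ∀ (c : ℤ) (y : Homology x' M' i), (c : K') • y = c • y := fun c y =>
    Int.cast_smul_eq_zsmul K' c y
  have hli : LinearIndependent K' (fun l => Φ (z l)) := by
    rw [Fintype.linearIndependent_iff]
    intro g hg l₀
    obtain ⟨c, hc0, hd'⟩ := hK _ g
    choose d hd' using hd'
    have h1 : Φ (∑ l, d l • z l) = 0 := by
      rw [map_sum]
      have h2 : ∑ l, Φ (d l • z l) = (c : K') • ∑ l, g l • Φ (z l) := by
        rw [Finset.smul_sum]
        refine Finset.sum_congr rfl fun l _ => ?_
        rw [map_zsmul, smul_smul, hd', hint]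
      rw [h2, hg, smul_zero]
    obtain ⟨c₀, z₁, hc₀, hz₁, hsat⟩ := hb _ (∑ l, d l • z l : ↥(cycles x M i)).2 ((hΦ0 _).1 h1)
    have h2 : (Submodule.Quotient.mk (∑ l, d l • z l) : Fr x M i) =
        c₀ • Submodule.Quotient.mk ⟨z₁, hz₁⟩ := by
      rw [← Submodule.Quotient.mk_smul, Submodule.Quotient.eq]
      exact hsat
    have h3 : (Submodule.Quotient.mk (∑ l, d l • z l) : Fr x M i) = ∑ l, d l • b l := by
      rw [← Submodule.mkQ_apply, map_sum]
      refine Finset.sum_congr rfl fun l _ => ?_
      rw [map_zsmul, Submodule.mkQ_apply, hz]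
    rw [h3] at h2
    have h4 := congrArg (fun y => b.repr y l₀) h2
    simp only [map_sum, map_zsmul, Finsupp.coe_finset_sum, Finset.sum_apply, Finsupp.smul_apply,
      Module.Basis.repr_self, smul_eq_mul] at h4
    rw [Finset.sum_eq_single l₀] at h4
    · rw [Finsupp.single_eq_same, mul_one] at h4
      have h5 : (c : K') * g l₀ = 0 := by
        rw [hd', h4]
        push_cast
        rw [hc₀, zero_mul]
      exact (mul_eq_zero.1 h5).resolve_left hc0
    · intro l _ hl
      rw [Finsupp.single_eq_of_ne (Ne.symm hl), mul_zero]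
    · intro h
      exact absurd (Finset.mem_univ _) h
  have hsp : ⊤ ≤ Submodule.span K' (Set.range fun l => Φ (z l)) := by
    rintro y -
    induction y using Submodule.Quotient.induction_on with
    | _ z' =>
      obtain ⟨c, z₀, hc0, hz₀, hB⟩ := ha _ z'.2
      have h1 : (c : K') • (Submodule.Quotient.mk z' : Homology x' M' i) = Φ ⟨z₀, hz₀⟩ := by
        rw [hint, ← Submodule.Quotient.mk_smul]
        exact (Submodule.Quotient.eq _).2 hB
      have h2 : Φ ⟨z₀, hz₀⟩ ∈ Submodule.span K' (Set.range fun l => Φ (z l)) := by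
        have h3 := hsum (fun l => b.repr (Submodule.Quotient.mk ⟨z₀, hz₀⟩) l) ⟨z₀, hz₀⟩
          (b.sum_repr _).symm
        have h4 := hΦs _ h3
        rw [map_sub, sub_eq_zero, map_sum] at h4
        rw [h4]
        refine Submodule.sum_mem _ fun l _ => ?_
        rw [map_zsmul, ← hint]
        exact Submodule.smul_mem _ _ (Submodule.subset_span ⟨l, rfl⟩)
      have h3 : (Submodule.Quotient.mk z' : Homology x' M' i) =
          (c : K')⁻¹ • ((c : K') • (Submodule.Quotient.mk z' : Homology x' M' i)) := by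
        rw [smul_smul, inv_mul_cancel₀ hc0, one_smul]
      rw [h3, h1]
      exact Submodule.smul_mem _ _ h2
  rw [Module.finrank_eq_card_basis (Module.Basis.mk hli hsp), Fintype.card_fin]

end Pool.Agent.X317.Kos
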