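import Mathlib
import Pool.Agent.X317.Kos.Rank

/-!
# The Koszul homology modulo a prime number and over `ℚ`
-/

set_option autoImplicit false
set_option linter.all false

open Finset

namespace Pool.Agent.X317.Kos

variable {n : ℕ} {A : Type*} [CommRing A] {x : Fin n → A} {M : Type*} [AddCommGroup M] [Module A M]

theorem map_cycle {A' M' : Type*} [CommRing A'] [AddCommGroup M'] [Module A' M'] {x' : Fin n → A'}
    {φ : M →+ M'} (hφ : ∀ j m, φ (x j • m) = x' j • φ m) {i : ℕ} {z : Finset (Fin n) → M}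
    (hz : z ∈ cycles x M i) : (fun T => φ (z T)) ∈ cycles x' M' i := by
  rw [mem_cycles] at hz ⊢
  refine ⟨fun T hT => by rw [hz.1 T hT, map_zero], ?_⟩
  rw [dif_map x x' φ hφ, hz.2]
  funext T
  exact map_zero φ

/-- **The homology modulo `p`.** -/
theorem finrank_mod [IsNoetherianRing A] [Module.Finite A M]
    (hA : ∀ s : A, ∃ c : ℤ, s - (c : A) ∈ Ideal.span (Set.range x)) (i : ℕ) (p : ℕ)
    [hp : Fact p.Prime] {A' M' : Type*} [CommRing A'] [Algebra (ZMod p) A'] [AddCommGroup M']
    [Module (ZMod p) M'] [Module A' M'] [IsScalarTower (ZMod p) A' M'] (x' : Fin n → A')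
    (φ : M →+ M') (hφ : ∀ j m, φ (x j • m) = x' j • φ m) (hsurj : Function.Surjective φ)
    (hker : ∀ m, φ m = 0 → ∃ m', m = (p : ℤ) • m') (htf : ∀ m : M, (p : ℤ) • m = 0 → m = 0) (N : ℕ)
    (hN : ∀ z : Finset (Fin n) → M, IsSat x z → ∃ w, dif M x w = N • z) (hpN : ¬ p ∣ N) :
    Module.finrank (ZMod p) (Homology x' M' i) = Module.finrank ℤ (Fr x M i) := by
  classical
  have hpc : ((p : ℤ) : ZMod p) = 0 := by
    rw [Int.cast_natCast, ZMod.natCast_self]
  have hpM : ∀ m' : M', (p : ℤ) • m' = 0 := by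
    intro m'
    rw [← Int.cast_smul_eq_zsmul (ZMod p), hpc, zero_smul]
  obtain ⟨a, b, hab⟩ : ∃ a b : ℤ, a * p + b * N = 1 := by
    have h1 : IsCoprime (p : ℤ) (N : ℤ) :=
      Nat.isCoprime_iff_coprime.2 ((Nat.Prime.coprime_iff_not_dvd hp.out).2 hpN)
    obtain ⟨a, b, h⟩ := h1
    exact ⟨a, b, h⟩
  have htfc : ∀ f : Finset (Fin n) → M, (p : ℤ) • f = 0 → f = 0 := by
    intro f hf
    funext T
    exact htf _ (congrFun hf T)
  have hbd : ∀ z : Finset (Fin n) → M, IsSat x z → ∃ u, z = (p : ℤ) • (a • z) + dif M x u := by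
    intro z hz
    obtain ⟨w, hw⟩ := hN z hz
    refine ⟨b • w, ?_⟩
    rw [map_zsmul, hw, ← natCast_zsmul z N, smul_smul, smul_smul, ← add_smul, mul_comm (p : ℤ) a,
      hab, one_smul]
  have hlift : ∀ (i : ℕ) (f' : Finset (Fin n) → M'), (∀ T, T.card ≠ i → f' T = 0) →
      ∃ f : Finset (Fin n) → M, (∀ T, T.card ≠ i → f T = 0) ∧ (fun T => φ (f T)) = f' := by
    intro i f' hf'
    choose g hg using fun T => hsurj (f' T)
    refine ⟨fun T => if T.card = i then g T else 0, fun T hT => if_neg hT, ?_⟩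
    funext T
    by_cases hT : T.card = i
    · simp only [if_pos hT, hg]
    · simp only [if_neg hT, map_zero, hf' T hT]
  have hdiv : ∀ (f : Finset (Fin n) → M), (fun T => φ (f T)) = 0 →
      ∃ g : Finset (Fin n) → M, f = (p : ℤ) • g ∧ ∀ T, f T = 0 → g T = 0 := by
    intro f hf
    choose g hg using fun T => hker (f T) (congrFun hf T)
    refine ⟨g, funext hg, fun T hT => ?_⟩
    exact htf _ ((hg T).symm.trans hT)
  refine finrank_eq hA x' φ ?_ ?_ ?_ ?_ (fun z hz => map_cycle hφ hz)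
  · intro r g
    refine ⟨1, by simp, fun l => ?_⟩
    obtain ⟨d, hd⟩ := ZMod.intCast_surjective (g l)
    exact ⟨d, by rw [hd]; simp⟩
  · intro z' hz'
    have hz'' := mem_cycles.1 hz'
    obtain ⟨f, hf, hfz⟩ := hlift i z' hz''.1
    have h1 : (fun T => φ (dif M x f T)) = 0 := by
      rw [← dif_map x x' φ hφ, hfz, hz''.2]
    obtain ⟨g, hg, hg0⟩ := hdiv _ h1
    have hdg : dif M x g = 0 := by
      apply htfc
      rw [← map_zsmul, ← hg, dif_dif]
    have hsg : IsSat x g := ⟨p, hp.out.pos, f, by rw [hg, natCast_zsmul]⟩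
    obtain ⟨u, hu⟩ := hbd g hsg
    have hgu : g = dif M x (a • f + u) := by
      rw [map_add, map_zsmul, hg]
      conv_lhs => rw [hu]
      rw [smul_comm]
    obtain ⟨v, hv, hvg⟩ : ∃ v : Finset (Fin n) → M, (∀ T, T.card ≠ i → v T = 0) ∧
        dif M x v = g := by
      refine ⟨comp i (a • f + u), comp_supp _ _, ?_⟩
      cases i with
      | zero =>
        have h2 : dif M x f = 0 := by
          funext T
          rw [dif_apply]
          refine Finset.sum_eq_zero fun j hj => ?_
          rw [hf, smul_zero, smul_zero]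
          exact Finset.card_ne_zero_of_mem (Finset.mem_insert_self j T)
        have h3 : g = 0 := by
          funext T
          exact hg0 T (congrFun h2 T)
        rw [h3]
        funext T
        rw [dif_apply]
        refine Finset.sum_eq_zero fun j hj => ?_
        rw [comp_supp, smul_zero, smul_zero]
        exact Finset.card_ne_zero_of_mem (Finset.mem_insert_self j T)
      | succ i =>
        rw [dif_comp, ← hgu]
        funext T
        by_cases hT : T.card = i
        · rw [comp, if_pos hT]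
        · rw [comp_supp _ _ _ hT, hg0 T (dif_supp hf T hT)]
    refine ⟨1, f - (p : ℤ) • v, by simp, ?_, ?_⟩
    · rw [mem_cycles]
      refine ⟨fun T hT => ?_, ?_⟩
      · rw [Pi.sub_apply, Pi.smul_apply, hf T hT, hv T hT, smul_zero, sub_zero]
      · rw [map_sub, map_zsmul, hvg, hg, sub_self]
    · have h2 : (1 : ℤ) • z' - (fun T => φ ((f - (p : ℤ) • v) T)) = 0 := by
        funext T
        rw [one_smul, Pi.sub_apply, Pi.sub_apply, map_sub, Pi.smul_apply, map_zsmul, hpM, sub_zero,
          ← congrFun hfz T, sub_self, Pi.zero_apply]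
      rw [h2]
      exact Submodule.zero_mem _
  · intro z hz hB
    rw [mem_boundaries] at hB
    obtain ⟨w', hw', hwz⟩ := hB
    obtain ⟨w, hw, hww⟩ := hlift (i + 1) w' hw'
    have h1 : (fun T => φ ((z - dif M x w) T)) = 0 := by
      funext T
      rw [Pi.sub_apply, map_sub, Pi.zero_apply, sub_eq_zero]
      have h2 := congrFun (dif_map x x' φ hφ w) T
      rw [hww, hwz] at h2
      exact h2
    obtain ⟨g, hg, hg0⟩ := hdiv _ h1
    have hz' := mem_cycles.1 hz
    refine ⟨p, g, hpc, ?_, ?_⟩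
    · rw [mem_cycles]
      refine ⟨fun T hT => hg0 T ?_, ?_⟩
      · rw [Pi.sub_apply, hz'.1 T hT, dif_supp hw T hT, sub_zero]
      · apply htfc
        rw [← map_zsmul, ← hg, map_sub, hz'.2, dif_dif, sub_zero]
    · rw [← hg, sub_sub_cancel]
      exact ⟨1, one_pos, w, by rw [one_smul]⟩
  · intro z hz hs
    obtain ⟨u, hu⟩ := hbd z hs
    have hz' := mem_cycles.1 hz
    refine boundary_of (fun T hT => by rw [hz'.1 T hT, map_zero]) ⟨fun T => φ (u T), ?_⟩
    rw [dif_map x x' φ hφ]
    funext T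
    have h1 := congrFun hu T
    rw [Pi.add_apply, Pi.smul_apply] at h1
    rw [h1, map_add, map_zsmul, hpM, zero_add]

/-- **The homology over `ℚ`.** -/
theorem finrank_rat [IsNoetherianRing A] [Module.Finite A M]
    (hA : ∀ s : A, ∃ c : ℤ, s - (c : A) ∈ Ideal.span (Set.range x)) (i : ℕ)
    {A' M' : Type*} [CommRing A'] [Algebra ℚ A'] [AddCommGroup M']
    [Module ℚ M'] [Module A' M'] [IsScalarTower ℚ A' M'] (x' : Fin n → A')
    (φ : M →+ M') (hφ : ∀ j m, φ (x j • m) = x' j • φ m)
    (hsurj : ∀ m', ∃ (c : ℕ) (m : M), 0 < c ∧ c • m' = φ m)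
    (hker : ∀ m, φ m = 0 → m = 0) :
    Module.finrank ℚ (Homology x' M' i) = Module.finrank ℤ (Fr x M i) := by
  classical
  have hlift : ∀ (i : ℕ) (f' : Finset (Fin n) → M'), (∀ T, T.card ≠ i → f' T = 0) →
      ∃ (c : ℕ) (f : Finset (Fin n) → M), 0 < c ∧ (∀ T, T.card ≠ i → f T = 0) ∧
        (fun T => φ (f T)) = c • f' := by
    intro i f' hf'
    choose c g hc hg using fun T => hsurj (f' T)
    refine ⟨∏ T, c T, fun T => if T.card = i then (∏ T' ∈ univ.erase T, c T') • g T else 0,
      Finset.prod_pos fun T _ => hc T, fun T hT => if_neg hT, ?_⟩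
    funext T
    by_cases hT : T.card = i
    · simp only [if_pos hT]
      rw [map_nsmul, ← hg, smul_smul, Finset.prod_erase_mul _ _ (Finset.mem_univ T)]
      rfl
    · simp only [if_neg hT, map_zero]
      rw [Pi.smul_apply, hf' T hT, smul_zero]
  refine finrank_eq hA x' φ ?_ ?_ ?_ ?_ (fun z hz => map_cycle hφ hz)
  · intro r g
    refine ⟨∏ l, ((g l).den : ℤ), ?_, fun l => ?_⟩
    · push_cast
      exact Finset.prod_ne_zero_iff.2 fun l _ => by exact_mod_cast (g l).den_ne_zero
    · refine ⟨(∏ l' ∈ univ.erase l, ((g l').den : ℤ)) * (g l).num, ?_⟩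
      rw [← Finset.prod_erase_mul _ _ (Finset.mem_univ l)]
      push_cast
      rw [mul_assoc]
      congr 1
      exact Rat.den_mul_eq_num (g l)
  · intro z' hz'
    have hz'' := mem_cycles.1 hz'
    obtain ⟨c, f, hc, hf, hfz⟩ := hlift i z' hz''.1
    refine ⟨c, f, by exact_mod_cast hc.ne', ?_, ?_⟩
    · rw [mem_cycles]
      refine ⟨hf, ?_⟩
      funext T
      apply hker
      have h1 := congrFun (dif_map x x' φ hφ f) T
      rw [hfz, map_nsmul, hz''.2, smul_zero] at h1
      exact h1.symm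
    · have h2 : (c : ℤ) • z' - (fun T => φ (f T)) = 0 := by
        rw [hfz, natCast_zsmul, sub_self]
      rw [h2]
      exact Submodule.zero_mem _
  · intro z hz hB
    rw [mem_boundaries] at hB
    obtain ⟨w', hw', hwz⟩ := hB
    obtain ⟨c, w, hc, hw, hww⟩ := hlift (i + 1) w' hw'
    refine ⟨0, 0, by simp, Submodule.zero_mem _, ?_⟩
    rw [smul_zero, sub_zero]
    refine ⟨c, hc, w, ?_⟩
    funext T
    rw [← sub_eq_zero]
    apply hker
    rw [map_sub, Pi.smul_apply, map_nsmul, sub_eq_zero]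
    have h2 := congrFun (dif_map x x' φ hφ w) T
    rw [hww, map_nsmul, hwz] at h2
    exact h2.symm
  · rintro z hz ⟨m, hm, w, hw⟩
    have hz' := mem_cycles.1 hz
    refine boundary_of (fun T hT => by rw [hz'.1 T hT, map_zero])
      ⟨(algebraMap ℚ A' (m : ℚ)⁻¹) • fun T => φ (w T), ?_⟩
    rw [map_smul, dif_map x x' φ hφ, hw]
    funext T
    rw [Pi.smul_apply, Pi.smul_apply, map_nsmul, algebraMap_smul, ← Nat.cast_smul_eq_nsmul ℚ,
      smul_smul, inv_mul_cancel₀ (by exact_mod_cast hm.ne'), one_smul]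

end Pool.Agent.X317.Kos
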