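import Mathlib
import Pool.Agent.X317.Kos.Fields

/-!
# The powers of a monomial ideal over different rings of coefficients
-/

set_option autoImplicit false
set_option linter.all false

open Finset MvPolynomial
open scoped Pointwise

namespace Pool.Agent.X317.Kos

variable {n : ℕ}

/-- The ideal generated by the monomials with exponents in `G`. -/
noncomputable def monIdeal (k : Type*) [CommRing k] (G : Finset (Fin n →₀ ℕ)) :
    Ideal (MvPolynomial (Fin n) k) :=
  Ideal.span ((fun e => monomial e (1 : k)) '' (G : Set (Fin n →₀ ℕ)))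

/-- The Betti number `β_i(M) = dim Tor_i(M, k)` of a module `M` over `k[x_1, …, x_n]`: the dimension of
the Koszul homology of degree `i` of `x_1, …, x_n` with values in `M`. -/
noncomputable def betti (k : Type*) [CommRing k] (M : Type*) [AddCommGroup M]
    [Module (MvPolynomial (Fin n) k) M] [Module k M] [IsScalarTower k (MvPolynomial (Fin n) k) M]
    (i : ℕ) : ℕ :=
  Module.finrank k (Homology (fun j : Fin n => (X j : MvPolynomial (Fin n) k)) M i)

theorem pow_eq (G : Finset (Fin n →₀ ℕ)) (h : ℕ) :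
    ∃ T : Set (Fin n →₀ ℕ), ∀ (k : Type) [CommRing k],
      monIdeal k G ^ h = Ideal.span ((fun e => monomial e (1 : k)) '' T) := by
  induction h with
  | zero =>
    refine ⟨{0}, fun k _ => ?_⟩
    rw [pow_zero, Set.image_singleton, Ideal.one_eq_top, eq_comm, Ideal.eq_top_iff_one]
    exact Ideal.subset_span rfl
  | succ h ih =>
    obtain ⟨T, hT⟩ := ih
    refine ⟨T + (G : Set (Fin n →₀ ℕ)), fun k _ => ?_⟩
    rw [pow_succ, hT, monIdeal, Ideal.span_mul_span']
    congr 1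
    ext f
    constructor
    · rintro ⟨_, ⟨a, ha, rfl⟩, _, ⟨b, hb, rfl⟩, rfl⟩
      exact ⟨a + b, Set.add_mem_add ha hb, by simp only [monomial_mul, mul_one]⟩
    · rintro ⟨_, ⟨a, ha, b, hb, rfl⟩, rfl⟩
      exact ⟨_, ⟨a, ha, rfl⟩, _, ⟨b, hb, rfl⟩, by simp only [monomial_mul, mul_one]⟩

theorem mem_of_supp (k : Type) [CommRing k] (G : Finset (Fin n →₀ ℕ)) (h : ℕ)
    (f g : MvPolynomial (Fin n) k) (hf : f ∈ monIdeal k G ^ h) (hfg : g.support ⊆ f.support) :
    g ∈ monIdeal k G ^ h := by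
  obtain ⟨T, hT⟩ := pow_eq (n := n) G h
  rw [hT, mem_ideal_span_monomial_image] at hf ⊢
  exact fun e he => hf e (hfg he)

theorem map_pow_eq (k : Type*) [CommRing k] (G : Finset (Fin n →₀ ℕ)) (h : ℕ) :
    (monIdeal ℤ G ^ h).map (MvPolynomial.map (Int.castRingHom k)) = monIdeal k G ^ h := by
  rw [Ideal.map_pow]
  congr 1
  rw [monIdeal, monIdeal, Ideal.map_span, Set.image_image]
  congr 1
  refine Set.image_congr fun e _ => ?_
  rw [map_monomial, map_one]

/-- the change of the coefficients -/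
noncomputable def phi (k : Type*) [CommRing k] (G : Finset (Fin n →₀ ℕ)) (h : ℕ) :
    ↥(monIdeal ℤ G ^ h) →+ ↥(monIdeal k G ^ h) where
  toFun f := ⟨MvPolynomial.map (Int.castRingHom k) (f : MvPolynomial (Fin n) ℤ), by
    rw [← map_pow_eq k G h]
    exact Ideal.mem_map_of_mem _ f.2⟩
  map_zero' := by
    apply Subtype.ext
    exact map_zero _
  map_add' a b := by
    apply Subtype.ext
    exact map_add _ _ _

theorem phi_smul (k : Type*) [CommRing k] (G : Finset (Fin n →₀ ℕ)) (h : ℕ) (j : Fin n)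
    (m : ↥(monIdeal ℤ G ^ h)) :
    phi k G h ((X j : MvPolynomial (Fin n) ℤ) • m) = (X j : MvPolynomial (Fin n) k) • phi k G h m := by
  apply Subtype.ext
  change MvPolynomial.map (Int.castRingHom k) (X j * (m : MvPolynomial (Fin n) ℤ)) =
    X j * MvPolynomial.map (Int.castRingHom k) (m : MvPolynomial (Fin n) ℤ)
  rw [map_mul, map_X]

theorem vars (s : MvPolynomial (Fin n) ℤ) : ∃ c : ℤ,
    s - (c : MvPolynomial (Fin n) ℤ) ∈ Ideal.span (Set.range fun j : Fin n =>
      (X j : MvPolynomial (Fin n) ℤ)) := by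
  induction s using MvPolynomial.induction_on with
  | C a =>
    refine ⟨a, ?_⟩
    have : (C a : MvPolynomial (Fin n) ℤ) - (a : MvPolynomial (Fin n) ℤ) = 0 := by
      rw [sub_eq_zero]
      exact eq_intCast C a
    rw [this]
    exact Ideal.zero_mem _
  | add p q hp hq =>
    obtain ⟨c, hc⟩ := hp
    obtain ⟨d, hd⟩ := hq
    refine ⟨c + d, ?_⟩
    have := Ideal.add_mem _ hc hd
    rw [Int.cast_add]
    convert this using 1
    ring
  | mul_X p j hp =>
    refine ⟨0, ?_⟩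
    rw [Int.cast_zero, sub_zero]
    exact Ideal.mul_mem_left _ _ (Ideal.subset_span ⟨j, rfl⟩)

theorem coeff_smul_int (c : ℤ) (f : MvPolynomial (Fin n) ℤ) (e : Fin n →₀ ℕ) :
    coeff e (c • f) = c * coeff e f := by
  rw [coeff_smul, smul_eq_mul]

theorem tf (G : Finset (Fin n →₀ ℕ)) (h : ℕ) (c : ℤ) (hc : c ≠ 0) (m : ↥(monIdeal ℤ G ^ h))
    (hm : c • m = 0) : m = 0 := by
  apply Subtype.ext
  have h1 : c • (m : MvPolynomial (Fin n) ℤ) = 0 := congrArg Subtype.val hm
  ext e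
  have h2 := congrArg (coeff e) h1
  rw [coeff_smul_int, coeff_zero] at h2
  exact (mul_eq_zero.1 h2).resolve_left hc

theorem ker_mod (p : ℕ) [hp : Fact p.Prime] (G : Finset (Fin n →₀ ℕ)) (h : ℕ)
    (m : ↥(monIdeal ℤ G ^ h)) (hm : phi (ZMod p) G h m = 0) : ∃ m', m = (p : ℤ) • m' := by
  have hp0 : (p : ℤ) ≠ 0 := by exact_mod_cast hp.out.ne_zero
  have h1 : MvPolynomial.map (Int.castRingHom (ZMod p)) (m : MvPolynomial (Fin n) ℤ) = 0 :=
    congrArg Subtype.val hm
  have h2 : (C (p : ℤ) : MvPolynomial (Fin n) ℤ) ∣ (m : MvPolynomial (Fin n) ℤ) := by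
    rw [C_dvd_iff_dvd_coeff]
    intro e
    have h3 := congrArg (coeff e) h1
    rw [coeff_map, coeff_zero, eq_intCast, ZMod.intCast_zmod_eq_zero_iff_dvd] at h3
    exact h3
  obtain ⟨g, hg⟩ := h2
  have hg' : (m : MvPolynomial (Fin n) ℤ) = (p : ℤ) • g := by
    rw [hg, smul_eq_C_mul]
  refine ⟨⟨g, ?_⟩, Subtype.ext hg'⟩
  refine mem_of_supp ℤ G h _ g m.2 ?_
  intro e he
  rw [mem_support_iff] at he ⊢
  rw [hg', coeff_smul_int]
  exact mul_ne_zero hp0 he

theorem surj_mod (p : ℕ) [hp : Fact p.Prime] (G : Finset (Fin n →₀ ℕ)) (h : ℕ) :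
    Function.Surjective (phi (n := n) (ZMod p) G h) := by
  rintro ⟨y, hy⟩
  rw [← map_pow_eq (ZMod p) G h, Ideal.mem_map_iff_of_surjective _
    (MvPolynomial.map_surjective _ ZMod.intCast_surjective)] at hy
  obtain ⟨f, hf, hfy⟩ := hy
  exact ⟨⟨f, hf⟩, Subtype.ext hfy⟩

theorem denom (f : MvPolynomial (Fin n) ℚ) : ∃ (c : ℕ) (g : MvPolynomial (Fin n) ℤ), 0 < c ∧
    c • f = MvPolynomial.map (Int.castRingHom ℚ) g := by
  induction f using MvPolynomial.induction_on with
  | C a =>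
    refine ⟨a.den, C a.num, a.den_pos, ?_⟩
    rw [map_C, ← map_nsmul]
    congr 1
    rw [nsmul_eq_mul, eq_intCast]
    exact Rat.den_mul_eq_num a
  | add p q hp hq =>
    obtain ⟨c, g, hc, hg⟩ := hp
    obtain ⟨d, g', hd, hg'⟩ := hq
    refine ⟨c * d, d • g + c • g', Nat.mul_pos hc hd, ?_⟩
    rw [smul_add, map_add, map_nsmul, map_nsmul, ← hg, ← hg', smul_smul, smul_smul, mul_comm d c]
  | mul_X p j hp =>
    obtain ⟨c, g, hc, hg⟩ := hp
    exact ⟨c, g * X j, hc, by rw [map_mul, map_X, ← hg, smul_mul_assoc]⟩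

theorem ker_rat (G : Finset (Fin n →₀ ℕ)) (h : ℕ) (m : ↥(monIdeal ℤ G ^ h))
    (hm : phi ℚ G h m = 0) : m = 0 := by
  apply Subtype.ext
  have h1 : MvPolynomial.map (Int.castRingHom ℚ) (m : MvPolynomial (Fin n) ℤ) = 0 :=
    congrArg Subtype.val hm
  have hinj : Function.Injective (Int.castRingHom ℚ) := Int.cast_injective
  exact (map_eq_zero_iff _ (MvPolynomial.map_injective _ hinj)).1 h1

theorem surj_rat (G : Finset (Fin n →₀ ℕ)) (h : ℕ) (m' : ↥(monIdeal ℚ G ^ h)) :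
    ∃ (c : ℕ) (m : ↥(monIdeal ℤ G ^ h)), 0 < c ∧ c • m' = phi ℚ G h m := by
  obtain ⟨y, hy⟩ := m'
  obtain ⟨c, g, hc, hg⟩ := denom y
  have hinj : Function.Injective (Int.castRingHom ℚ) := Int.cast_injective
  have hcy : c • y = (c : ℚ) • y := (Nat.cast_smul_eq_nsmul ℚ c y).symm
  have hsupp : ∀ e ∈ g.support, e ∈ y.support := by
    intro e he
    rw [mem_support_iff] at he ⊢
    intro h0
    apply he
    have h1 := congrArg (coeff e) hg
    rw [hcy, coeff_smul, h0, smul_zero, coeff_map, eq_intCast] at h1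
    exact_mod_cast h1.symm
  have hg' : g ∈ monIdeal ℤ G ^ h := by
    obtain ⟨T, hT⟩ := pow_eq (n := n) G h
    rw [hT ℚ, mem_ideal_span_monomial_image] at hy
    rw [hT ℤ, mem_ideal_span_monomial_image]
    exact fun e he => hy e (hsupp e he)
  exact ⟨c, ⟨g, hg'⟩, hc, Subtype.ext hg⟩

/-- **The Betti numbers of all powers are the same for all but finitely many primes.** -/
theorem main (G : Finset (Fin n →₀ ℕ)) : ∃ N : ℕ, 0 < N ∧ ∀ p : ℕ, p.Prime → ¬ p ∣ N →
    ∀ h i : ℕ, betti (n := n) (ZMod p) ↥(monIdeal (ZMod p) G ^ h) i =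
      betti (n := n) ℚ ↥(monIdeal ℚ G ^ h) i := by
  obtain ⟨N, hN0, hN⟩ := uniform (monIdeal ℤ G) (fun j : Fin n => (X j : MvPolynomial (Fin n) ℤ))
  refine ⟨N, hN0, fun p hp hpN h i => ?_⟩
  haveI : Fact p.Prime := ⟨hp⟩
  unfold betti
  rw [finrank_mod (M := ↥(monIdeal ℤ G ^ h)) vars i p _ (phi (ZMod p) G h)
      (phi_smul (ZMod p) G h) (surj_mod p G h) (ker_mod p G h)
      (tf G h p (by exact_mod_cast hp.ne_zero)) N (fun z hz => hN h z hz) hpN,
    finrank_rat (M := ↥(monIdeal ℤ G ^ h)) vars i _ (phi ℚ G h) (phi_smul ℚ G h)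
      (surj_rat G h) (ker_rat G h)]

end Pool.Agent.X317.Kos
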